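import Pool.Agent.Helper70.KN.Goals4
import Pool.Agent.Helper83.KN.SHE

/-!
# The volume of `R_ij`, integral form (packet RV of project KN)
-/

set_option autoImplicit false

open MeasureTheory Set

namespace Pool.Agent.Helper17.KN.RV

open Pool.Agent.Helper70.KN
open Pool.Agent.Helper83.KN.SHE (Sh RR meas_RR meas_Sh)

variable {N : ℕ}

/-- The point of the slice. -/
theorem Sh_upd (i j : Fin N) (hij : j ≠ i) (s : ℝ) (x : Fin N → ℝ) :
    Sh i j (Function.update x j s) =
      fun k => if k = j then s else if k = i then x k else x k + s := by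
  funext k
  unfold Sh
  by_cases hk : k = j
  · subst hk
    rw [if_pos (Or.inr rfl), Function.update_self, if_pos rfl]
  · rw [if_neg hk, Function.update_of_ne hk, Function.update_self]
    by_cases hk' : k = i
    · rw [if_pos (Or.inl (Finset.mem_singleton.2 hk')), if_pos hk']
    · rw [if_neg, if_neg hk']
      rw [Finset.mem_singleton]
      tauto

theorem t (hMF : S_MF) (hSI : S_SI) (hSH : S_SH) (hSLD : S_SLD) : S_RV := by
  intro N V L ω hC i j hij
  obtain ⟨hm, -, -⟩ := hMF N V hC.1 ∅
  have hRm : MeasurableSet (RR V i j (1 / 2)) := meas_RR hm i j (1 / 2)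
  change _ ≤ volume (RR V i j (1 / 2))
  set P : Set (Fin N → ℝ) := {x | Sh i j x ∈ RR V i j (1 / 2)} with hP
  have hPm : MeasurableSet P := meas_Sh i j hRm
  have hPv : volume P = volume (RR V i j (1 / 2)) := hSH N (RR V i j (1 / 2)) {i} j hRm
  have slice : ∀ s : ℝ, 0 < s → s < 1 / 2 →
      ∫⁻ x in cyl V {j}, ENNReal.ofReal ((max 0 (1 - s * sl L ω i j x)) ^ (N - 1)) ≤
        volume {x : Fin N → ℝ | 0 ≤ x j ∧ x j < 1 ∧ Function.update x j s ∈ P} := by
    intro s hs0 hs
    refine (hSLD N V L ω hC i j s hij hs0.le).trans ?_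
    have hnull : ∀ᵐ x : Fin N → ℝ, ∀ k, x k ≠ 0 := by
      rw [ae_all_iff]
      intro k
      rw [ae_iff]
      simp only [ne_eq, not_not]
      exact Measure.pi_hyperplane (fun _ : Fin N => (volume : Measure ℝ)) k 0
    refine measure_mono_ae ?_
    filter_upwards [hnull] with x hx hxc
    obtain ⟨h0, h1, h2⟩ := hxc
    have hpos : ∀ k, 0 < x k := fun k => lt_of_le_of_ne (h0 k) (hx k).symm
    refine ⟨h0 j, h1, ?_⟩
    change Sh i j (Function.update x j s) ∈ RR V i j (1 / 2)
    rw [Sh_upd i j hij s x]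
    refine ⟨⟨?_, ?_, ?_⟩, ?_, ?_⟩
    · intro k
      change 0 ≤ if k = j then s else if k = i then x k else x k + s
      have := hpos k
      split_ifs
      · exact hs0.le
      · exact this.le
      · linarith
    · intro k hk
      exact absurd hk (Finset.notMem_empty k)
    · convert h2 using 1
      have hz : ∀ y : Fin N → ℝ, zr ∅ y = y := by
        intro y
        funext k
        simp [zr]
      rw [hz]
    · change (if j = j then s else _) < 1 / 2
      rw [if_pos rfl]
      exact hs
    · intro k hk hk'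
      change (if j = j then s else _) < if k = j then s else if k = i then x k else x k + s
      rw [if_pos rfl, if_neg hk', if_neg hk]
      have := hpos k
      linarith
  rw [← hPv, hSI N P j hPm]
  calc ∫⁻ s in Ioo (0 : ℝ) (1 / 2), ∫⁻ x in cyl V {j},
        ENNReal.ofReal ((max 0 (1 - s * sl L ω i j x)) ^ (N - 1))
      ≤ ∫⁻ s in Ioo (0 : ℝ) (1 / 2),
          volume {x : Fin N → ℝ | 0 ≤ x j ∧ x j < 1 ∧ Function.update x j s ∈ P} :=
        setLIntegral_mono' measurableSet_Ioo fun s hs => slice s hs.1 hs.2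
    _ ≤ ∫⁻ s : ℝ, volume {x : Fin N → ℝ | 0 ≤ x j ∧ x j < 1 ∧ Function.update x j s ∈ P} :=
        setLIntegral_le_lintegral _ _

end Pool.Agent.Helper17.KN.RV
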