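import Pool.Agent.Helper70.KN.Goals

/-! Diagonal scaling of volume (packet SC of project KN). -/

open MeasureTheory Set

namespace Pool.Agent.Helper17.KN.SC

open Pool.Agent.Helper70.KN

theorem t : S_SC := by
  intro N S D hS hD
  have hdet : Matrix.det (Matrix.diagonal D) = ∏ i, D i := Matrix.det_diagonal
  have hpos : 0 < ∏ i, D i := Finset.prod_pos fun i _ => hD i
  have h := Real.smul_map_diagonal_volume_pi (D := D) (by rw [hdet]; exact hpos.ne')
  have hmeas : Measurable (Matrix.toLin' (Matrix.diagonal D)) :=
    Continuous.measurable (LinearMap.continuous_on_pi _)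
  have h2 := congrArg (fun μ : Measure (Fin N → ℝ) => μ S) h
  simp only [Measure.smul_apply, smul_eq_mul] at h2
  rw [Measure.map_apply hmeas hS, hdet, abs_of_pos hpos] at h2
  rw [← h2]
  congr 2
  ext x
  simp only [Set.mem_preimage, Set.mem_ofPred_eq]
  have : (Matrix.toLin' (Matrix.diagonal D)) x = fun i => D i * x i := by
    ext i
    simp [Matrix.toLin'_apply, Matrix.mulVec_diagonal]
  rw [this]

end Pool.Agent.Helper17.KN.SC
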